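import Pool.Agent.MP_d32a63_an.H58.Spec

/-! The boundary values of the limit function along a flat side. -/

open Set Filter Topology Metric
open Complex (I)
open Pool.Agent.MP_d32a63_an.H95 (Core Sec W0 Flat)
open Pool.Agent.MP_d32a63_an.H58

namespace Pool.Agent.MP_d32a63_an.H51

noncomputable section

/-- The signed height over the line through `z`. -/
def Lf (s c : ℝ) (z u : ℂ) : ℝ := s * ((u - z).im - c * (u - z).re)

theorem Lf_eq (s c : ℝ) (z u : ℂ) : Lf s c z u = s * (u.im - z.im - c * (u.re - z.re)) := by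
  simp [Lf]

theorem Lf_lip {s : ℝ} (hs : s = 1 ∨ s = -1) (c : ℝ) (z u v : ℂ) :
    |Lf s c z u - Lf s c z v| ≤ (1 + |c|) * ‖u - v‖ := by
  have h1 : |(u - v).im| ≤ ‖u - v‖ := Complex.abs_im_le_norm _
  have h2 : |(u - v).re| ≤ ‖u - v‖ := Complex.abs_re_le_norm _
  have h3 : Lf s c z u - Lf s c z v = s * ((u - v).im - c * (u - v).re) := by
    simp only [Lf_eq, Complex.sub_im, Complex.sub_re]; ring
  have h4 : |s| = 1 := by rcases hs with h | h <;> simp [h]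
  rw [h3, abs_mul, h4, one_mul]
  have h5 : |(u - v).im - c * (u - v).re| ≤ |(u - v).im| + |c * (u - v).re| := abs_sub _ _
  rw [abs_mul] at h5
  have h6 : |c| * |(u - v).re| ≤ |c| * ‖u - v‖ := mul_le_mul_of_nonneg_left h2 (abs_nonneg _)
  linarith

theorem Lf_cont (s c : ℝ) (z : ℂ) : Continuous (Lf s c z) := by
  unfold Lf; fun_prop

theorem Lf_self (s c : ℝ) (z : ℂ) : Lf s c z z = 0 := by simp [Lf]

theorem Lf_vert (s c : ℝ) (z u : ℂ) (a : ℝ) :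
    Lf s c z (u + (a : ℂ) * I) = Lf s c z u + s * a := by
  simp only [Lf_eq, Complex.add_im, Complex.add_re, Complex.mul_im, Complex.mul_re,
    Complex.ofReal_re, Complex.ofReal_im, Complex.I_re, Complex.I_im]
  ring

theorem norm_vert (u : ℂ) (a : ℝ) : ‖u + (a : ℂ) * I - u‖ = |a| := by
  rw [add_sub_cancel_left, norm_mul, Complex.norm_I, mul_one, Complex.norm_real, Real.norm_eq_abs]

theorem clos_iff {W : Set ℂ} {s c r : ℝ} {z : ℂ} (hs : s = 1 ∨ s = -1)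
    (h : ∀ u ∈ ball z r, u ∈ W ↔ 0 < Lf s c z u) {u : ℂ} (hu : u ∈ ball z r) :
    u ∈ closure W ↔ 0 ≤ Lf s c z u := by
  have hss : s * s = 1 := by rcases hs with h | h <;> simp [h]
  have habs : |s| = 1 := by rcases hs with h | h <;> simp [h]
  constructor
  · intro hc
    by_contra hn
    push Not at hn
    have ho : IsOpen (ball z r ∩ {v | Lf s c z v < 0}) :=
      isOpen_ball.inter (isOpen_lt (Lf_cont s c z) continuous_const)
    obtain ⟨v, ⟨hv1, hv2⟩, hv3⟩ := mem_closure_iff.1 hc _ ho ⟨hu, hn⟩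
    have := (h v hv1).1 hv3
    exact absurd hv2 (not_lt.2 this.le)
  · intro h0
    rw [Metric.mem_closure_iff]
    intro ε hε
    have hr : 0 < r - dist u z := sub_pos.2 hu
    set a := min ε (r - dist u z) / 2 with ha
    have ha0 : 0 < a := by positivity
    have ha1 : a < ε := by have := min_le_left ε (r - dist u z); linarith
    have ha2 : a < r - dist u z := by have := min_le_right ε (r - dist u z); linarith
    have hd : ‖u + ((s * a : ℝ) : ℂ) * I - u‖ = a := by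
      rw [norm_vert, abs_mul, habs, one_mul, abs_of_pos ha0]
    refine ⟨u + ((s * a : ℝ) : ℂ) * I, (h _ ?_).2 ?_, ?_⟩
    · rw [mem_ball]
      have := dist_triangle (u + ((s * a : ℝ) : ℂ) * I) u z
      rw [dist_eq_norm (u + _) u, hd] at this
      linarith
    · rw [Lf_vert, ← mul_assoc, hss]; linarith
    · rw [dist_comm, dist_eq_norm, hd]; exact ha1

/-- The local picture at a flat boundary point. -/
structure Loc (W : Set ℂ) (Γ : Set Seg) (F0 : ℂ → ℂ) (τ s c r : ℝ) (z : ℂ) : Prop where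
  sg : s = 1 ∨ s = -1
  r0 : 0 < r
  op : ∀ u ∈ ball z r, u ∈ W ↔ 0 < Lf s c z u
  gp : ∀ u ∈ ball z r, ∀ g ∈ Γ, u ∉ segment ℝ g.p g.v
  fc : ∀ u ∈ ball z r, ‖F0 u - F0 z‖ ≤ τ / 2000

theorem Loc.clos {W Γ F0 τ s c r z} (h : Loc W Γ F0 τ s c r z) {u : ℂ} (hu : u ∈ ball z r) :
    u ∈ closure W ↔ 0 ≤ Lf s c z u := clos_iff h.sg h.op hu

theorem exists_loc {n : ℕ} {W : Set ℂ} {F : ℕ → ℂ → ℂ} {Γ : Set Seg} (hΓ : Gaps n W F Γ)
    (hF : Continuous (F 0)) {τ : ℝ} (hτ : 0 < τ) {z : ℂ} (hz : z ∈ closure W) (hf : Flat W z)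
    (hg : ∀ g ∈ Γ, z ≠ g.p ∧ z ≠ g.v) : ∃ s c r, Loc W Γ (F 0) τ s c r z := by
  obtain ⟨r, hr, c, s, hs, h⟩ := hf
  have hcl : IsClosed (⋃ g ∈ Γ, segment ℝ g.p g.v) := by
    refine hΓ.fin.isClosed_biUnion fun g _ => ?_
    rw [segment_eq_image]
    exact (isCompact_Icc.image (by fun_prop)).isClosed
  have hzn : z ∈ (⋃ g ∈ Γ, segment ℝ g.p g.v)ᶜ := by
    intro hm
    obtain ⟨g, hgΓ, hm⟩ := mem_iUnion₂.1 hm
    have h1 : z ∈ openSegment ℝ g.p g.v :=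
      mem_openSegment_of_ne_left_right (hg g hgΓ).1.symm (hg g hgΓ).2.symm hm
    exact Set.disjoint_left.1 (hΓ.free g hgΓ) h1 hz
  obtain ⟨r1, hr1, h1⟩ := Metric.isOpen_iff.1 hcl.isOpen_compl z hzn
  obtain ⟨r2, hr2, h2⟩ := Metric.continuous_iff.1 hF z (τ / 2000) (by positivity)
  refine ⟨s, c, min r (min r1 r2), hs, by positivity, fun u hu => ?_, fun u hu g hgΓ hm => ?_,
    fun u hu => ?_⟩
  · exact h u (ball_subset_ball (min_le_left _ _) hu)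
  · exact h1 (ball_subset_ball ((min_le_right _ _).trans (min_le_left _ _)) hu)
      (mem_iUnion₂.2 ⟨g, hgΓ, hm⟩)
  · have := h2 u (ball_subset_ball ((min_le_right _ _).trans (min_le_right _ _)) hu)
    rw [dist_eq_norm] at this
    exact this.le

/-- The grid line next to `y`. -/
def kk (ℓ : ℝ) (y : ℂ) : ℤ := 3 * ⌊y.re / (3 * ℓ)⌋

/-- The point of the line through `y` with slope `c` on that grid line. -/
def yy (c ℓ : ℝ) (y : ℂ) : ℂ := ⟨(kk ℓ y : ℝ) * ℓ, y.im + c * ((kk ℓ y : ℝ) * ℓ - y.re)⟩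

theorem kk_bd {ℓ : ℝ} (hℓ : 0 < ℓ) (y : ℂ) :
    (kk ℓ y : ℝ) * ℓ ≤ y.re ∧ y.re < (kk ℓ y : ℝ) * ℓ + 3 * ℓ := by
  have h3 : 0 < 3 * ℓ := by positivity
  have h1 := Int.floor_le (y.re / (3 * ℓ))
  have h2 := Int.lt_floor_add_one (y.re / (3 * ℓ))
  rw [le_div_iff₀ h3] at h1
  rw [div_lt_iff₀ h3] at h2
  unfold kk
  push_cast
  constructor <;> nlinarith

theorem yy_im {ℓ : ℝ} (hℓ : 0 < ℓ) (c : ℝ) (y : ℂ) : |(yy c ℓ y).im - y.im| ≤ |c| * (3 * ℓ) := by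
  obtain ⟨h1, h2⟩ := kk_bd hℓ y
  have : (yy c ℓ y).im - y.im = c * ((kk ℓ y : ℝ) * ℓ - y.re) := by simp [yy]
  rw [this, abs_mul]
  refine mul_le_mul_of_nonneg_left ?_ (abs_nonneg _)
  rw [abs_le]; constructor <;> linarith

theorem yy_dist {ℓ : ℝ} (hℓ : 0 < ℓ) (c : ℝ) (y : ℂ) :
    ‖yy c ℓ y - y‖ ≤ (1 + |c|) * (3 * ℓ) := by
  obtain ⟨h1, h2⟩ := kk_bd hℓ y
  have h3 := yy_im hℓ c y
  have h4 := Complex.norm_le_abs_re_add_abs_im (yy c ℓ y - y)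
  have h5 : |(yy c ℓ y - y).re| ≤ 3 * ℓ := by
    have : (yy c ℓ y - y).re = (kk ℓ y : ℝ) * ℓ - y.re := by simp [yy]
    rw [this, abs_le]; constructor <;> linarith
  rw [Complex.sub_im] at h4
  linarith

theorem yy_Lf (s c ℓ : ℝ) (z y : ℂ) : Lf s c z (yy c ℓ y) = Lf s c z y := by
  simp only [Lf_eq, yy]; ring

theorem cen_re (ℓ : ℝ) (i j : ℤ) : (cen ℓ (i, j)).re = ((i : ℝ) + 1 / 2) * ℓ := by
  simp [cen]

theorem cen_im (ℓ : ℝ) (i j : ℤ) : (cen ℓ (i, j)).im = ((j : ℝ) + 1 / 2) * ℓ := by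
  simp [cen]

theorem tube_mem {W Γ F0 τ s c r z} (h : Loc W Γ F0 τ s c r z) (hτ : 0 < τ) {u v w : ℂ}
    (hu : u ∈ ball z r) (hv : v ∈ ball z r) (hw : w ∈ ball (F0 u + τ * actr) (τ / 200)) :
    w ∈ ball (F0 v + τ * actr) (τ / 60) := by
  have h1 := h.fc u hu
  have h2 := h.fc v hv
  rw [mem_ball, dist_eq_norm] at hw ⊢
  have h3 : w - (F0 v + τ * actr) =
      (w - (F0 u + τ * actr)) + (F0 u - F0 z) - (F0 v - F0 z) := by ring
  rw [h3]
  have h4 := norm_sub_le ((w - (F0 u + τ * actr)) + (F0 u - F0 z)) (F0 v - F0 z)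
  have h5 := norm_add_le (w - (F0 u + τ * actr)) (F0 u - F0 z)
  linarith

theorem col_bd {s c ℓ d t : ℝ} {z x : ℂ} (hs : s = 1 ∨ s = -1) (hℓ : 0 < ℓ)
    (ht : Lf s c z x = -t) (hm : (1 + |c|) * ℓ ≤ d / 100) (hdt : 160 * d ≤ t) {j : ℤ}
    (hj : |((j : ℝ) + 1 / 2) * ℓ - (yy c ℓ (x + ((s * t : ℝ) : ℂ) * I)).im - -s * d| ≤ ℓ)
    {i j' : ℤ} (hi1 : kk ℓ (x + ((s * t : ℝ) : ℂ) * I) - 1 ≤ i)
    (hi2 : i ≤ kk ℓ (x + ((s * t : ℝ) : ℂ) * I) + 1)
    (hj' : (j ≤ j' ∧ j' ≤ ⌊x.im / ℓ⌋) ∨ (⌊x.im / ℓ⌋ ≤ j' ∧ j' ≤ j)) :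
    ‖cen ℓ (i, j') - x‖ ≤ 2 * t ∧ Lf s c z (cen ℓ (i, j')) ≤ -d + 5 * ((1 + |c|) * ℓ) ∧
      |((j' : ℝ) - ⌊x.im / ℓ⌋) * ℓ| ≤ 2 * t := by
  set y := x + ((s * t : ℝ) : ℂ) * I with hy
  have hss : s * s = 1 := by rcases hs with h | h <;> simp [h]
  have hyre : y.re = x.re := by simp [hy]
  have hyim : y.im = x.im + s * t := by simp [hy]
  have hyL : Lf s c z y = 0 := by rw [hy, Lf_vert, ht, ← mul_assoc, hss]; ring
  have hYL : Lf s c z (yy c ℓ y) = 0 := by rw [yy_Lf, hyL]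
  have hYre : (yy c ℓ y).re = (kk ℓ y : ℝ) * ℓ := rfl
  obtain ⟨hk1, hk2⟩ := kk_bd hℓ y
  have hYim := abs_le.1 (yy_im hℓ c y)
  have hA : 0 ≤ |c| * ℓ := by positivity
  have hf1 := Int.floor_le (x.im / ℓ)
  have hf2 := Int.lt_floor_add_one (x.im / ℓ)
  rw [le_div_iff₀ hℓ] at hf1
  rw [div_lt_iff₀ hℓ] at hf2
  set j2 := ⌊x.im / ℓ⌋ with hj2
  have hi1' : ((kk ℓ y : ℝ) - 1) * ℓ ≤ (i : ℝ) * ℓ :=
    mul_le_mul_of_nonneg_right (by exact_mod_cast hi1) hℓ.le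
  have hi2' : (i : ℝ) * ℓ ≤ ((kk ℓ y : ℝ) + 1) * ℓ :=
    mul_le_mul_of_nonneg_right (by exact_mod_cast hi2) hℓ.le
  have hb : ((j : ℝ) * ℓ ≤ (j' : ℝ) * ℓ ∧ (j' : ℝ) * ℓ ≤ (j2 : ℝ) * ℓ) ∨
      ((j2 : ℝ) * ℓ ≤ (j' : ℝ) * ℓ ∧ (j' : ℝ) * ℓ ≤ (j : ℝ) * ℓ) := by
    rcases hj' with ⟨a, b⟩ | ⟨a, b⟩
    · exact Or.inl ⟨mul_le_mul_of_nonneg_right (by exact_mod_cast a) hℓ.le,
        mul_le_mul_of_nonneg_right (by exact_mod_cast b) hℓ.le⟩
    · exact Or.inr ⟨mul_le_mul_of_nonneg_right (by exact_mod_cast a) hℓ.le,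
        mul_le_mul_of_nonneg_right (by exact_mod_cast b) hℓ.le⟩
  have he : |c * (((i : ℝ) + 1 / 2) * ℓ - (kk ℓ y : ℝ) * ℓ)| ≤ |c| * (2 * ℓ) := by
    rw [abs_mul]
    refine mul_le_mul_of_nonneg_left ?_ (abs_nonneg _)
    rw [abs_le]; constructor <;> linarith
  have he' := abs_le.1 he
  have hL : Lf s c z (cen ℓ (i, j')) = s * (((j' : ℝ) + 1 / 2) * ℓ - (yy c ℓ y).im) -
      s * (c * (((i : ℝ) + 1 / 2) * ℓ - (kk ℓ y : ℝ) * ℓ)) := by
    have h0 := hYL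
    rw [Lf_eq, hYre] at h0
    rw [Lf_eq, cen_re, cen_im]
    linarith
  have hjj := abs_le.1 hj
  have him : |((j' : ℝ) + 1 / 2) * ℓ - x.im| ≤ t + d + 2 * (d / 100) * 3 := by
    rw [abs_le]
    rcases hs with rfl | rfl <;> rcases hb with ⟨a, b⟩ | ⟨a, b⟩ <;> constructor <;> linarith
  have him' := abs_le.1 him
  refine ⟨?_, ?_, ?_⟩
  · have h4 := Complex.norm_le_abs_re_add_abs_im (cen ℓ (i, j') - x)
    rw [Complex.sub_re, Complex.sub_im, cen_re, cen_im] at h4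
    have h5 : |((i : ℝ) + 1 / 2) * ℓ - x.re| ≤ 5 * ℓ := by
      rw [abs_le]; constructor <;> linarith
    linarith
  · rw [hL]
    rcases hs with rfl | rfl <;> rcases hb with ⟨a, b⟩ | ⟨a, b⟩ <;> linarith
  · rw [abs_le]; constructor <;> linarith

theorem fin_level (hB : BASIC) (hV : LAV) (hA : LA1) {n : ℕ} {W : Set ℂ} {F : ℕ → ℂ → ℂ}
    {Γ : Set Seg} {τ K : ℝ} {βf : ℝ → ℝ} {e : ℂ} {d : ℝ} {g0 : ℂ → ℂ} {ℓ : ℝ}
    {Φ μ cc : ℤ × ℤ → ℂ → ℂ} (hΓ : Gaps n W F Γ)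
    (hC : Cells W Γ (F 0) τ K βf e d g0 ℓ Φ μ cc) (hK : 1 ≤ K) (hτ : 0 < τ)
    {s c r : ℝ} {z : ℂ} (h : Loc W Γ (F 0) τ s c r z) {x : ℂ} {t : ℝ} (ht : Lf s c z x = -t)
    (hx : ‖x - z‖ + 5 * t < r) (hd1 : 100 * (1 + |c|) * d ≤ 1)
    (hd2 : 160 * (1 + |c|) * d ≤ t) {η : ℝ} (hη : 0 < η) (hβ : d ≤ βf η) {c0 : ℂ}
    (hun : ∀ w ∈ ball (F 0 x + τ * actr) (τ / 60), ‖Φ (cl ℓ x) w - c0‖ ≤ βf η / 4)
    (h1 : 12 * K * t ≤ βf η / 2) (h2 : 200 * K * d ≤ βf η / 4) :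
    ‖g0 (yy c ℓ (x + ((s * t : ℝ) : ℂ) * I)) - c0‖ ≤ η := by
  have hs := h.sg
  have hd := hC.d0
  have hℓ := hC.l0
  have hss : s * s = 1 := by rcases hs with h | h <;> simp [h]
  have habs : |s| = 1 := by rcases hs with h | h <;> simp [h]
  have hc0 : 0 ≤ |c| := abs_nonneg c
  have hm : (1 + |c|) * ℓ ≤ d / 100 := by
    have h3 : (1 + |c|) * ℓ ≤ (1 + |c|) * d ^ 2 := mul_le_mul_of_nonneg_left hC.ld (by positivity)
    nlinarith
  have hcl : 0 ≤ |c| * ℓ := by positivity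
  have hcd : 0 ≤ |c| * d := by positivity
  have hdt : 160 * d ≤ t := by linarith
  have ht0 : 0 < t := by linarith
  have near : ∀ u : ℂ, ‖u - x‖ ≤ 5 * t → u ∈ ball z r := by
    intro u hu
    rw [mem_ball, dist_eq_norm]
    have := norm_sub_le_norm_sub_add_norm_sub u x z
    linarith
  have out : ∀ u : ℂ, ‖u - x‖ ≤ 5 * t → Lf s c z u < 0 → u ∉ closure W := fun u hu hL hc =>
    absurd ((h.clos (near u hu)).1 hc) (not_le.2 hL)
  have key := fun (j : ℤ) hj (i j' : ℤ) => col_bd (z := z) (j := j) (i := i) (j' := j')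
    hs hℓ ht hm hdt hj
  set y := x + ((s * t : ℝ) : ℂ) * I with hy
  have hyx : ‖y - x‖ = t := by rw [hy, norm_vert, abs_mul, habs, one_mul, abs_of_pos ht0]
  have hyL : Lf s c z y = 0 := by rw [hy, Lf_vert, ht, ← mul_assoc, hss]; ring
  have hYL : Lf s c z (yy c ℓ y) = 0 := by rw [yy_Lf, hyL]
  have hYx : ‖yy c ℓ y - x‖ ≤ 2 * t := by
    have h3 := norm_sub_le_norm_sub_add_norm_sub (yy c ℓ y) y x
    have h4 := yy_dist hℓ c y
    linarith
  have hvert : ∀ a : ℝ, 0 < a → a ≤ 3 * d →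
      Lf s c z (yy c ℓ y + ((-s * a : ℝ) : ℂ) * I) = -a ∧
      ‖yy c ℓ y + ((-s * a : ℝ) : ℂ) * I - x‖ ≤ 3 * t := by
    intro a ha0 ha
    constructor
    · rw [Lf_vert, hYL]
      have : s * (-s * a) = -(s * s) * a := by ring
      rw [this, hss]; ring
    · have h3 := norm_sub_le_norm_sub_add_norm_sub (yy c ℓ y + ((-s * a : ℝ) : ℂ) * I)
        (yy c ℓ y) x
      rw [norm_vert, abs_mul, abs_neg, habs, one_mul, abs_of_pos ha0] at h3
      linarith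
  have prb : Prb W Γ d ℓ (kk ℓ y) (yy c ℓ y) (-s) := by
    refine ⟨(h.clos (near _ (by linarith))).2 hYL.ge, ?_, ?_, rfl, fun a ha => ?_, ?_⟩
    · rcases hs with h | h <;> simp [h]
    · unfold kk; omega
    · obtain ⟨h3, h4⟩ := hvert a ha.1 ha.2
      exact ⟨out _ (by linarith) (by rw [h3]; linarith [ha.1]),
        h.gp _ (near _ (by linarith))⟩
    · rw [Set.disjoint_left]
      intro u hu
      obtain ⟨h3, h4⟩ := hvert d hd (by linarith)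
      rw [mem_ball, dist_eq_norm] at hu
      have h5 := abs_le.1 (Lf_lip hs c z u (yy c ℓ y + ((-s * d : ℝ) : ℂ) * I))
      have h6 : (1 + |c|) * ‖u - (yy c ℓ y + ((-s * d : ℝ) : ℂ) * I)‖ ≤ (1 + |c|) * (10 * ℓ) :=
        mul_le_mul_of_nonneg_left hu.le (by positivity)
      have h7 := norm_sub_le_norm_sub_add_norm_sub u (yy c ℓ y + ((-s * d : ℝ) : ℂ) * I) x
      exact out u (by linarith) (by linarith)
  obtain ⟨j, hj, hp⟩ := hC.pro _ _ _ prb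
  refine hp η hη hβ c0 fun w hw => ?_
  set k := kk ℓ y with hk
  set j2 := ⌊x.im / ℓ⌋ with hj2
  have hjj : (j ≤ j ∧ j ≤ j2) ∨ (j2 ≤ j ∧ j ≤ j) := by omega
  obtain ⟨a1, -, a3⟩ := key j hj k j (by omega) (by omega) hjj
  have tub : ∀ v : ℂ, ‖v - x‖ ≤ 5 * t → w ∈ ball (F 0 v + τ * actr) (τ / 60) := fun v hv =>
    tube_mem h hτ (near _ (by linarith)) (near v hv) hw
  have tub' : ∀ Q : ℤ × ℤ, ‖cen ℓ Q - x‖ ≤ 5 * t → w ∈ tube (F 0) τ ℓ Q := fun Q hQ =>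
    ball_subset_ball (by linarith) (tub _ hQ)
  have col : ∀ i j' : ℤ, k - 1 ≤ i → i ≤ k + 1 → ((j ≤ j' ∧ j' ≤ j2) ∨ (j2 ≤ j' ∧ j' ≤ j)) →
      act W ℓ (i, j') ∧ w ∈ tube (F 0) τ ℓ (i, j') := by
    intro i j' hi1 hi2 hj'
    obtain ⟨b1, b2, -⟩ := key j hj i j' hi1 hi2 hj'
    refine ⟨?_, tub' _ (by linarith)⟩
    unfold act
    rw [Set.disjoint_left]
    intro u hu
    rw [mem_ball, dist_eq_norm] at hu
    have h5 := abs_le.1 (Lf_lip hs c z u (cen ℓ (i, j')))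
    have h6 : (1 + |c|) * ‖u - cen ℓ (i, j')‖ ≤ (1 + |c|) * (3 * ℓ) :=
      mul_le_mul_of_nonneg_left hu.le (by positivity)
    have h7 := norm_sub_le_norm_sub_add_norm_sub u (cen ℓ (i, j')) x
    exact out u (by linarith) (by linarith)
  have a3' := abs_le.1 a3
  have e1 : ‖Φ (k, j) w - Φ (k, j2) w‖ ≤ 12 * K * t := by
    rcases le_total j j2 with hle | hle
    · have h3 := hV W Γ (F 0) τ K βf e d g0 ℓ Φ μ cc hC hK k j j2 w hle
        fun i j' a b a' b' => col i j' a b (Or.inl ⟨a', b'⟩)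
      have h4 : ((j2 - j : ℤ) : ℝ) * ℓ ≤ 2 * t := by push_cast; linarith
      have h5 : 6 * K * (((j2 - j : ℤ) : ℝ) * ℓ) ≤ 6 * K * (2 * t) :=
        mul_le_mul_of_nonneg_left h4 (by positivity)
      linarith
    · have h3 := hV W Γ (F 0) τ K βf e d g0 ℓ Φ μ cc hC hK k j2 j w hle
        fun i j' a b a' b' => col i j' a b (Or.inr ⟨a', b'⟩)
      have h4 : ((j - j2 : ℤ) : ℝ) * ℓ ≤ 2 * t := by push_cast; linarith
      have h5 : 6 * K * (((j - j2 : ℤ) : ℝ) * ℓ) ≤ 6 * K * (2 * t) :=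
        mul_le_mul_of_nonneg_left h4 (by positivity)
      rw [norm_sub_rev]
      linarith
  have hm0 : 0 < 1 + |c| := by positivity
  set R := t / (16 * (1 + |c|)) with hR
  have hRm : 16 * ((1 + |c|) * R) = t := by rw [hR]; field_simp
  have hR0 : 0 < R := by positivity
  have hcR : 0 ≤ |c| * R := by positivity
  have hdR : 10 * d ≤ R := by
    rw [hR, le_div_iff₀ (by positivity)]; linarith
  have hbx : ∀ u ∈ ball x (8 * R), ‖u - x‖ ≤ 5 * t ∧ Lf s c z u < 0 := by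
    intro u hu
    rw [mem_ball, dist_eq_norm] at hu
    have h5 := abs_le.1 (Lf_lip hs c z u x)
    have h6 : (1 + |c|) * ‖u - x‖ ≤ (1 + |c|) * (8 * R) :=
      mul_le_mul_of_nonneg_left hu.le (by positivity)
    constructor <;> linarith
  have hcx : ‖cen ℓ (k, j2) - x‖ ≤ 4 * ℓ := by
    have h4 := Complex.norm_le_abs_re_add_abs_im (cen ℓ (k, j2) - x)
    rw [Complex.sub_re, Complex.sub_im, cen_re, cen_im] at h4
    obtain ⟨hk1, hk2⟩ := kk_bd hℓ y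
    have hyre : y.re = x.re := by simp [hy]
    have hf1 := Int.floor_le (x.im / ℓ)
    have hf2 := Int.lt_floor_add_one (x.im / ℓ)
    rw [le_div_iff₀ hℓ] at hf1
    rw [div_lt_iff₀ hℓ] at hf2
    have h5 : |((k : ℝ) + 1 / 2) * ℓ - x.re| ≤ 3 * ℓ := by
      rw [abs_le]; constructor <;> linarith
    have h6 : |((j2 : ℝ) + 1 / 2) * ℓ - x.im| ≤ ℓ := by
      rw [abs_le]; constructor <;> linarith
    linarith
  have e2 := hA n W F Γ τ K βf e d g0 ℓ Φ μ cc hΓ hC hK x w R hdR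
    (Set.disjoint_left.2 fun u hu => out u (hbx u hu).1 (hbx u hu).2)
    (fun Q hQ => tub' Q (hbx _ hQ).1)
    (Or.inl fun g hg => Set.disjoint_left.2 fun u hu => h.gp u (near u (hbx u hu).1) g hg)
    (cen ℓ (k, j2)) (by rw [mem_ball, dist_eq_norm]; linarith) x (mem_ball_self hR0)
  rw [hB.cl2 ℓ _ hℓ] at e2
  have e3 : 100 * K * (‖cen ℓ (k, j2) - x‖ + d) ≤ 100 * K * (2 * d) :=
    mul_le_mul_of_nonneg_left (by linarith) (by positivity)
  have e4 := hun w (tub x (by rw [sub_self, norm_zero]; positivity))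
  have e5 := norm_sub_le_norm_sub_add_norm_sub (Φ (k, j) w) (Φ (k, j2) w) c0
  have e6 := norm_sub_le_norm_sub_add_norm_sub (Φ (k, j2) w) (Φ (cl ℓ x) w) c0
  linarith

theorem UF_le : UF ≤ atTop := by
  unfold UF
  rw [← Nat.cofinite_eq_atTop]
  exact hyperfilter_le_cofinite

theorem UF_ne : UF.NeBot := by
  unfold UF
  infer_instance

theorem flat_of {W Γ F0 τ s c r z} (h : Loc W Γ F0 τ s c r z) {y : ℂ} (hy : y ∈ ball z r)
    (hL : Lf s c z y = 0) : Flat W y := by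
  refine ⟨r - dist y z, sub_pos.2 hy, c, s, h.sg, fun u hu => ?_⟩
  have hu' : u ∈ ball z r := by
    rw [mem_ball] at hu ⊢
    have := dist_triangle u y z
    linarith
  rw [h.op u hu']
  have : Lf s c z u = s * ((u - y).im - c * (u - y).re) := by
    rw [Lf_eq] at hL
    rw [Lf_eq, Complex.sub_im, Complex.sub_re]
    linarith
  rw [this]

theorem near_val (hB : BASIC) (hV : LAV) (hA : LA1) {n : ℕ} {S : Core n} {Γ : Set Seg}
    {τ K : ℝ} {βf : ℝ → ℝ} {e : ℂ} {d ℓ : ℕ → ℝ} {G : ℕ → ℕ → ℂ → ℂ}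
    {Φ μ cc : ℕ → ℤ × ℤ → ℂ → ℂ} {ψ : ℂ → ℂ} (hS : Sq S Γ τ K βf e d ℓ G Φ μ cc)
    (hLA : LimA S.W (S.F 0) τ K e ℓ Φ) (hLG : LimG S.W G)
    (hψ : ∀ z, z ∉ closure S.W → ∀ w ∈ ball (S.F 0 z + τ * actr) (τ / 50), phi ℓ Φ z w = ψ z)
    {s c r : ℝ} {z : ℂ} (h : Loc S.W Γ (S.F 0) τ s c r z) {x : ℂ} {t : ℝ}
    (hxW : x ∉ closure S.W) (ht : Lf s c z x = -t) (ht0 : 0 < t) (hx : ‖x - z‖ + 5 * t < r)
    {η : ℝ} (hη : 0 < η) (h1 : 12 * K * t ≤ βf η / 2) :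
    ‖gl G (x + ((s * t : ℝ) : ℂ) * I) - ψ x‖ ≤ η := by
  have := UF_ne
  have hs := h.sg
  have hss : s * s = 1 := by rcases hs with h | h <;> simp [h]
  have habs : |s| = 1 := by rcases hs with h | h <;> simp [h]
  have hτ := hS.t0
  have hK := hS.K1
  have hβ := hS.bf η hη
  have hm0 : 0 < 1 + |c| := by positivity
  have hd : Tendsto d UF (𝓝 0) := hS.lim.mono_left UF_le
  have ev : ∀ a b : ℝ, 0 < b → ∀ᶠ J in UF, a * d J ≤ b := by
    intro a b hb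
    have : Tendsto (fun J => a * d J) UF (𝓝 0) := by simpa using hd.const_mul a
    exact (this.eventually (gt_mem_nhds hb)).mono fun J hJ => hJ.le
  have hun := Metric.tendstoUniformlyOn_iff.1 (hLA.un x hxW) (βf η / 4) (by positivity)
  have main : ∀ᶠ J in UF,
      ‖G J 0 (yy c (ℓ J) (x + ((s * t : ℝ) : ℂ) * I)) - ψ x‖ ≤ η := by
    filter_upwards [ev (100 * (1 + |c|)) 1 one_pos, ev (160 * (1 + |c|)) t ht0,
      ev 1 (βf η) hβ, ev (200 * K) (βf η / 4) (by positivity), hun] with J a1 a2 a3 a4 a5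
    refine fin_level hB hV hA hS.gaps (hS.cells J) hK hτ h ht hx a1 a2 hη (by linarith)
      (fun w hw => ?_) h1 a4
    have b1 := a5 w hw
    rw [hψ x hxW w (ball_subset_ball (by linarith) hw), dist_comm, dist_eq_norm] at b1
    exact b1.le
  set y := x + ((s * t : ℝ) : ℂ) * I with hy
  have hyx : ‖y - x‖ = t := by rw [hy, norm_vert, abs_mul, habs, one_mul, abs_of_pos ht0]
  have hyL : Lf s c z y = 0 := by rw [hy, Lf_vert, ht, ← mul_assoc, hss]; ring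
  have hyb : y ∈ ball z r := by
    rw [mem_ball, dist_eq_norm]
    have := norm_sub_le_norm_sub_add_norm_sub y x z
    linarith
  have hl : ∀ J, ‖yy c (ℓ J) y - y‖ ≤ (3 * (1 + |c|)) * d J := by
    intro J
    have c1 := (hS.cells J).l0
    have c2 := (hS.cells J).ld
    have c3 := (hS.cells J).d0
    have c4 := (hS.cells J).d1
    have c5 : ℓ J ≤ d J := by nlinarith
    have c6 := yy_dist c1 c y
    have c7 : (1 + |c|) * ℓ J ≤ (1 + |c|) * d J := mul_le_mul_of_nonneg_left c5 hm0.le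
    linarith
  have hten : Tendsto (fun J => yy c (ℓ J) y) UF (𝓝 y) := by
    rw [tendsto_iff_norm_sub_tendsto_zero]
    have : Tendsto (fun J => (3 * (1 + |c|)) * d J) UF (𝓝 0) := by
      simpa using hd.const_mul (3 * (1 + |c|))
    exact squeeze_zero (fun _ => norm_nonneg _) hl this
  have hmem : ∀ᶠ J in UF, yy c (ℓ J) y ∈ closure S.W := by
    filter_upwards [hten.eventually (isOpen_ball.mem_nhds hyb)] with J hJ
    exact (h.clos hJ).2 (by rw [yy_Lf, hyL])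
  have hyW : y ∉ S.W := fun hw => by
    have := (h.op y hyb).1 hw
    rw [hyL] at this
    exact lt_irrefl _ this
  have hlim := (hLG.side y ((h.clos hyb).2 hyL.ge) hyW (flat_of h hyb hyL)).2 _ hmem hten
  exact le_of_tendsto ((hlim.sub_const (ψ x)).norm) main

theorem limb : R_LIMB := by
  intro hB hV hA n S Γ τ K βf e d ℓ G Φ μ cc ψ hS hLA hLG hψ z hz hzW hf hg
  obtain ⟨s, c, r, h⟩ := exists_loc hS.gaps (S.cont 0) hS.t0 hz hf hg
  have hs := h.sg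
  have hss : s * s = 1 := by rcases hs with h | h <;> simp [h]
  have habs : |s| = 1 := by rcases hs with h | h <;> simp [h]
  rw [Metric.tendsto_nhdsWithin_nhds]
  intro ε hε
  obtain ⟨δ, hδ, hc⟩ := Metric.continuousWithinAt_iff.1 (hLG.side z hz hzW hf).1 (ε / 2)
    (by positivity)
  have hη : 0 < ε / 4 := by positivity
  have hβ := hS.bf _ hη
  have hK : 0 < K := lt_of_lt_of_le one_pos hS.K1
  have hr := h.r0
  have hm0 : 0 < 1 + |c| := by positivity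
  refine ⟨min (min r δ / (1 + 5 * (1 + |c|))) (βf (ε / 4) / (24 * K * (1 + |c|))),
    by positivity, fun x hxW hx => ?_⟩
  rw [dist_eq_norm, lt_min_iff, lt_div_iff₀ (by positivity), lt_div_iff₀ (by positivity),
    lt_min_iff] at hx
  obtain ⟨⟨x1, x2⟩, x3⟩ := hx
  have hL := abs_le.1 (Lf_lip hs c z x z)
  rw [Lf_self, sub_zero] at hL
  have hn : 0 ≤ (1 + |c|) * ‖x - z‖ := by positivity
  have hxb : x ∈ ball z r := by rw [mem_ball, dist_eq_norm]; linarith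
  have hneg : Lf s c z x < 0 := not_le.1 fun h0 => hxW ((h.clos hxb).2 h0)
  set t := -Lf s c z x with htd
  have ht : Lf s c z x = -t := by rw [htd, neg_neg]
  have ht0 : 0 < t := by linarith
  have ht1 : t ≤ (1 + |c|) * ‖x - z‖ := by linarith
  have hKt : K * t ≤ K * ((1 + |c|) * ‖x - z‖) := mul_le_mul_of_nonneg_left ht1 hK.le
  have e1 := near_val hB hV hA hS hLA hLG hψ h hxW ht ht0 (by linarith) hη (by linarith)
  set y := x + ((s * t : ℝ) : ℂ) * I with hy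
  have hyx : ‖y - x‖ = t := by rw [hy, norm_vert, abs_mul, habs, one_mul, abs_of_pos ht0]
  have hyL : Lf s c z y = 0 := by rw [hy, Lf_vert, ht, ← mul_assoc, hss]; ring
  have hyz := norm_sub_le_norm_sub_add_norm_sub y x z
  have hyb : y ∈ ball z r := by rw [mem_ball, dist_eq_norm]; linarith
  have e2 := hc ((h.clos hyb).2 hyL.ge) (by rw [dist_eq_norm]; linarith)
  rw [dist_eq_norm] at e2 ⊢
  have e3 := norm_sub_le_norm_sub_add_norm_sub (ψ x) (gl G y) (gl G z)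
  rw [norm_sub_rev] at e1
  linarith

end

end Pool.Agent.MP_d32a63_an.H51
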